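import Pool.Agent.H938R3.HT.Stmts

set_option autoImplicit false

namespace Pool.Agent.H87R3.HT

open Pool.Agent.H938R3.HT

theorem pig : TaskPIG := by
  intro H hH M hM
  have h1 : (H ∩ {i | M ≤ i}).Infinite := by
    have : H ⊆ (H ∩ {i | M ≤ i}) ∪ {i | i < M} := by
      intro i hi
      by_cases h : M ≤ i
      · exact Or.inl ⟨hi, h⟩
      · exact Or.inr (not_le.1 h)
    intro hfin
    exact hH ((hfin.union (Set.finite_lt_nat M)).subset this)
  have h2 : ∃ r, ((H ∩ {i | M ≤ i}) ∩ {i | i % M = r}).Infinite := by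
    by_contra hcon
    push Not at hcon
    apply h1
    have : H ∩ {i | M ≤ i} ⊆ ⋃ r ∈ Set.Iio M, ((H ∩ {i | M ≤ i}) ∩ {i | i % M = r}) := by
      intro i hi
      simp only [Set.mem_iUnion]
      exact ⟨i % M, Nat.mod_lt _ hM, hi, rfl⟩
    refine Set.Finite.subset ((Set.finite_Iio M).biUnion fun r _ => ?_) this
    exact hcon r
  obtain ⟨r, hr⟩ := h2
  obtain ⟨s, hs, hc⟩ := hr.exists_subset_card_eq M
  refine ⟨s, ?_, fun i hi => ⟨(hs hi).1.1, (hs hi).1.2⟩, ?_⟩
  · rw [← Finset.card_pos, hc]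
    exact hM
  · have h3 : ((∑ i ∈ s, i : ℕ) : ZMod M) = 0 := by
      push_cast
      have h4 : ∀ i ∈ s, ((i : ℕ) : ZMod M) = (r : ZMod M) := by
        intro i hi
        have h5 : i % M = r := (hs hi).2
        rw [← h5, ZMod.natCast_mod]
      rw [Finset.sum_congr rfl h4, Finset.sum_const, hc, nsmul_eq_mul, ZMod.natCast_self, zero_mul]
    exact (ZMod.natCast_eq_zero_iff _ _).1 h3

end Pool.Agent.H87R3.HT
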